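import Mathlib
import Pool.Agent.J4.H31.DV.Rav2
import Pool.Agent.J4.H38.GD.Defs

/-! Project GD (helper38), piece AV2: the local densities of almost all sets of shifts in an arbitrary set `A`. -/

set_option autoImplicit false

namespace Pool.Agent.J4.H40.GD

open Finset Filter
open Pool.Agent.Y822 (inv_sq_gt)
open Pool.Agent.J4.H38.SR2 (sh QW)
open Pool.Agent.J4.H38.DV (GG)
open Pool.Agent.J4.H38.GD (Pw)
open Pool.Agent.J4.H31.DV (bd Bp BT loc one_sub_sum_le_prod rho_large BT_pairs sum_one sum_two)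
open Pool.Agent.H373R2.T7 (pz mem_pz rhoA facA)

/-- the two-sided bound for one set of shifts -/
lemma Pw_GG {k w M y : ℕ} (hw : 2 * k + 2 ≤ w) (hkw : 8 * (k : ℝ) ^ 2 ≤ w) {T : Finset ℕ}
    (hTk : T.card ≤ k) :
    (1 - 8 * (k : ℝ) ^ 2 / w) * GG w y ^ T.card ≤ Pw (QW (sh M T)) w y ∧
    Pw (QW (sh M T)) w y ≤ GG w y ^ T.card * ∏ p ∈ BT M w y T, (1 + 2 * (k : ℝ) / p) ∧ 0 ≤ GG w y := by
  classical
  obtain ⟨j, hj⟩ : ∃ j, j = T.card := ⟨_, rfl⟩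
  rw [← hj] at hTk ⊢
  have hk0 : (0 : ℝ) ≤ k := Nat.cast_nonneg k
  have hw0 : (0 : ℝ) < w := by exact_mod_cast (by omega : 0 < w)
  have hPq : Pw (QW (sh M T)) w y = ∏ p ∈ (pz y).filter (fun p => w < p),
      (1 - (rhoA (QW (sh M T)) p : ℝ) / ((p : ℝ) - 1)) := rfl
  have hmem : ∀ p ∈ (pz y).filter (fun p => w < p), p.Prime ∧ w < p ∧ 2 * k + 2 ≤ p := by
    intro p hp
    rw [mem_filter, mem_pz] at hp
    exact ⟨hp.1.2, hp.2, by omega⟩
  have hloc := fun p (hp : p ∈ (pz y).filter (fun p => w < p)) =>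
    loc (p := p) (k := k) (j := j) (ρ := rhoA (QW (sh M T)) p) hTk
      (by rw [hj]; exact (rho_large M T (hmem p hp).1).1) (hmem p hp).2.2
  have hGG0 : 0 ≤ GG w y := prod_nonneg fun p hp => (hloc p hp).1
  have hGGj : GG w y ^ j = ∏ p ∈ (pz y).filter (fun p => w < p), (1 - 1 / ((p : ℝ) - 1)) ^ j := by
    unfold GG
    rw [prod_pow]
  have hsmall : ∀ p ∈ (pz y).filter (fun p => w < p), 0 ≤ 8 * (k : ℝ) ^ 2 * (1 / (p : ℝ) ^ 2) ∧
      8 * (k : ℝ) ^ 2 * (1 / (p : ℝ) ^ 2) ≤ 1 := by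
    intro p hp
    obtain ⟨h1, h2, h3⟩ := hmem p hp
    refine ⟨by positivity, ?_⟩
    have h4 : (w : ℝ) ≤ p := by exact_mod_cast h2.le
    have h5 : (1 : ℝ) ≤ p := by exact_mod_cast (by omega : 1 ≤ p)
    rw [mul_one_div, div_le_one (by positivity)]
    nlinarith
  refine ⟨?_, ?_, hGG0⟩
  · have h1 : 1 - 8 * (k : ℝ) ^ 2 / w ≤
        ∏ p ∈ (pz y).filter (fun p => w < p), (1 - 8 * (k : ℝ) ^ 2 * (1 / (p : ℝ) ^ 2)) := by
      refine le_trans ?_ (one_sub_sum_le_prod _ _ hsmall)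
      rw [← mul_sum]
      have h2 := inv_sq_gt (y := w) (by omega) ((pz y).filter (fun p => w < p)) (fun p hp => (hmem p hp).2.1)
      have h3 := mul_le_mul_of_nonneg_left h2 (by positivity : 0 ≤ 8 * (k : ℝ) ^ 2)
      have h4 : 8 * (k : ℝ) ^ 2 * (1 / w) = 8 * (k : ℝ) ^ 2 / w := by ring
      rw [h4] at h3
      linarith
    refine (mul_le_mul_of_nonneg_right h1 (pow_nonneg hGG0 j)).trans ?_
    rw [hGGj, hPq, ← prod_mul_distrib]
    refine prod_le_prod (fun p hp => ?_) fun p hp => (hloc p hp).2.1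
    exact mul_nonneg (by have := (hsmall p hp).2; linarith) (pow_nonneg (hloc p hp).1 j)
  · have h1 : ∏ p ∈ BT M w y T, (1 + 2 * (k : ℝ) / p) =
        ∏ p ∈ (pz y).filter (fun p => w < p), (if ∃ s ∈ T, ∃ t ∈ T, bd M s t p then 1 + 2 * (k : ℝ) / p else 1) := by
      unfold BT
      rw [← prod_filter, filter_filter]
    rw [h1, hPq, hGGj, ← prod_mul_distrib]
    refine prod_le_prod (fun p hp => (facA _ p (hmem p hp).1).1) fun p hp => ?_
    split_ifs with h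
    · have h2 := (facA (QW (sh M T)) p (hmem p hp).1).2
      have h3 := (hloc p hp).2.2.2
      linarith
    · rw [mul_one]
      refine (hloc p hp).2.2.1 ?_
      rw [hj]
      refine (rho_large M T (hmem p hp).1).2 fun s hs t ht hb => h ⟨s, hs, t, ht, hb⟩

/-- **AV2** -/
theorem av2 (k : ℕ) : ∃ (C Ca : ℝ) (w₀ : ℕ), 0 < C ∧ 0 ≤ Ca ∧ 2 ≤ w₀ ∧ ∀ w : ℕ, w₀ ≤ w → ∀ (M y : ℕ) (A : Finset ℕ)
    (ζ : ℝ), w ≤ y → 0 ≤ ζ → ζ ≤ 1 →
    ∑ t ∈ A, (∏ p ∈ (pz y).filter (fun p => w < p ∧ p ∣ M + t), (1 + Ca / (p : ℝ)) - 1) ≤ ζ * A.card →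
    (∀ s ∈ A, ∑ t ∈ A.erase s,
      (∏ p ∈ (pz y).filter (fun p => w < p ∧ (p : ℤ) ∣ (s : ℤ) - t), (1 + Ca / (p : ℝ)) - 1) ≤ ζ * A.card) →
    ∀ j ≤ k, ∑ T ∈ A.powersetCard j, |Pw (QW (sh M T)) w y - GG w y ^ j| ≤ C * (ζ + 1 / w) * (GG w y * A.card) ^ j := by
  classical
  have hk0 : (0 : ℝ) ≤ k := Nat.cast_nonneg k
  obtain ⟨C, hC⟩ : ∃ C, C = (1 + 2 * (k : ℝ)) ^ (k * k) := ⟨_, rfl⟩
  have hC0 : 0 ≤ C := by rw [hC]; positivity
  refine ⟨8 * (k : ℝ) ^ 2 + 2, C, (2 * k + 2) + ⌈8 * (k : ℝ) ^ 2⌉₊, by positivity, hC0, by omega,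
    fun w hw M y A ζ hwy hζ0 _ hr1 hr2 j hj => ?_⟩
  have hwc1 : ⌈8 * (k : ℝ) ^ 2⌉₊ ≤ w := by omega
  have hwr1 : 8 * (k : ℝ) ^ 2 ≤ w := (Nat.le_ceil _).trans (Nat.cast_le.2 hwc1)
  have hw0 : (0 : ℝ) < w := by exact_mod_cast (by omega : 0 < w)
  have hwk : 2 * k + 2 ≤ w := by omega
  obtain ⟨δ, hδ⟩ : ∃ δ, δ = 8 * (k : ℝ) ^ 2 / w := ⟨_, rfl⟩
  have hδ0 : 0 ≤ δ := by rw [hδ]; positivity
  have hge : ∀ s t, 0 ≤ ∏ p ∈ Bp M w y s t, (1 + C / (p : ℝ)) - 1 := by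
    intro s t
    have : ∏ _p ∈ Bp M w y s t, (1 : ℝ) ≤ ∏ p ∈ Bp M w y s t, (1 + C / (p : ℝ)) := by
      refine prod_le_prod (fun _ _ => zero_le_one) fun p _ => ?_
      have : 0 ≤ C / (p : ℝ) := by positivity
      linarith
    rw [prod_const_one] at this
    linarith
  have hG0 : 0 ≤ GG w y := (Pw_GG (k := k) (y := y) (M := M) hwk hwr1 (T := ∅) (by simp)).2.2
  have hpt : ∀ T ∈ A.powersetCard j, |Pw (QW (sh M T)) w y - GG w y ^ j| ≤ GG w y ^ j * (δ +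
      (∑ t ∈ T, (∏ p ∈ Bp M w y t t, (1 + C / (p : ℝ)) - 1) +
        ∑ s ∈ T, ∑ t ∈ T.erase s, (∏ p ∈ Bp M w y s t, (1 + C / (p : ℝ)) - 1))) := by
    intro T hT
    rw [mem_powersetCard] at hT
    obtain ⟨h1, h2, h3⟩ := Pw_GG (k := k) (y := y) (M := M) hwk hwr1 (by omega : T.card ≤ k)
    have h4 := BT_pairs (k := k) (N := M) (w := w) (y := y) (T := T) (by omega)
    rw [← hC] at h4
    rw [hT.2] at h1 h2
    rw [← hδ] at h1
    have h5 : ∑ s ∈ T, ∑ t ∈ T, (∏ p ∈ Bp M w y s t, (1 + C / (p : ℝ)) - 1) =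
        ∑ t ∈ T, (∏ p ∈ Bp M w y t t, (1 + C / (p : ℝ)) - 1) +
        ∑ s ∈ T, ∑ t ∈ T.erase s, (∏ p ∈ Bp M w y s t, (1 + C / (p : ℝ)) - 1) := by
      rw [← sum_add_distrib]
      refine sum_congr rfl fun s hs => ?_
      rw [add_sum_erase T (fun t => ∏ p ∈ Bp M w y s t, (1 + C / (p : ℝ)) - 1) hs]
    rw [h5] at h4
    have hGj : 0 ≤ GG w y ^ j := pow_nonneg hG0 j
    obtain ⟨S, hS⟩ : ∃ S, S = ∑ t ∈ T, (∏ p ∈ Bp M w y t t, (1 + C / (p : ℝ)) - 1) +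
        ∑ s ∈ T, ∑ t ∈ T.erase s, (∏ p ∈ Bp M w y s t, (1 + C / (p : ℝ)) - 1) := ⟨_, rfl⟩
    have hS0 : 0 ≤ S := by
      rw [hS]
      exact add_nonneg (sum_nonneg fun t _ => hge t t) (sum_nonneg fun s _ => sum_nonneg fun t _ => hge s t)
    rw [← hS] at h4 ⊢
    rw [abs_le]
    constructor
    · have h7 : 0 ≤ GG w y ^ j * S := mul_nonneg hGj hS0
      nlinarith
    · have h6 : GG w y ^ j * ∏ p ∈ BT M w y T, (1 + 2 * (k : ℝ) / p) ≤ GG w y ^ j * (1 + S) :=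
        mul_le_mul_of_nonneg_left (by linarith) hGj
      have h7 : 0 ≤ GG w y ^ j * δ := by positivity
      nlinarith
  have hgoal : ∑ T ∈ A.powersetCard j, |Pw (QW (sh M T)) w y - GG w y ^ j| ≤
      (δ + 2 * ζ) * (GG w y * A.card) ^ j := by
    refine (sum_le_sum hpt).trans ?_
    rw [← mul_sum, mul_pow, mul_left_comm]
    refine mul_le_mul_of_nonneg_left ?_ (pow_nonneg hG0 j)
    rw [sum_add_distrib, sum_add_distrib, sum_const, nsmul_eq_mul]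
    have hcard : (((A.powersetCard j).card : ℕ) : ℝ) ≤ (A.card : ℝ) ^ j := by
      rw [card_powersetCard]
      exact_mod_cast Nat.choose_le_pow A.card j
    have g1 := sum_one A j (fun t => ∏ p ∈ Bp M w y t t, (1 + C / (p : ℝ)) - 1) (fun t => hge t t)
    have g2 := sum_two A j (fun s t => ∏ p ∈ Bp M w y s t, (1 + C / (p : ℝ)) - 1) hge
    have f1 : ∑ t ∈ A, (∏ p ∈ Bp M w y t t, (1 + C / (p : ℝ)) - 1) ≤ ζ * A.card := by
      refine le_trans (le_of_eq ?_) hr1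
      refine sum_congr rfl fun t _ => ?_
      unfold Bp bd
      simp
    have f2 : ∑ s ∈ A, ∑ t ∈ A.erase s, (∏ p ∈ Bp M w y s t, (1 + C / (p : ℝ)) - 1) ≤
        A.card * (ζ * A.card) := by
      rw [← nsmul_eq_mul, ← sum_const]
      refine sum_le_sum fun s hs => ?_
      refine le_trans (le_of_eq ?_) (hr2 s hs)
      refine sum_congr rfl fun t ht => ?_
      have hne : s ≠ t := (ne_of_mem_erase ht).symm
      unfold Bp bd
      simp only [if_neg hne]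
    have hcj : (0 : ℝ) ≤ (A.card : ℝ) ^ j := by positivity
    rcases Nat.eq_zero_or_pos A.card with h0 | hpos
    · have hAe : A = ∅ := card_eq_zero.1 h0
      have h1 : ∀ T ∈ A.powersetCard j, T = ∅ := fun T hT => by
        have := (mem_powersetCard.1 hT).1
        rw [hAe] at this
        exact subset_empty.1 this
      have e1 : ∑ T ∈ A.powersetCard j, ∑ t ∈ T, (∏ p ∈ Bp M w y t t, (1 + C / (p : ℝ)) - 1) = 0 :=
        sum_eq_zero fun T hT => by rw [h1 T hT, sum_empty]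
      have e2 : ∑ T ∈ A.powersetCard j, ∑ s ∈ T, ∑ t ∈ T.erase s,
          (∏ p ∈ Bp M w y s t, (1 + C / (p : ℝ)) - 1) = 0 :=
        sum_eq_zero fun T hT => by rw [h1 T hT, sum_empty]
      rw [e1, e2]
      have := mul_le_mul_of_nonneg_right hcard hδ0
      have h3 : 0 ≤ ζ * (A.card : ℝ) ^ j := by positivity
      nlinarith
    · have hc : (0 : ℝ) < A.card := by exact_mod_cast hpos
      have k1 : ∑ T ∈ A.powersetCard j, ∑ t ∈ T, (∏ p ∈ Bp M w y t t, (1 + C / (p : ℝ)) - 1) ≤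
          ζ * (A.card : ℝ) ^ j := by
        have h1 := g1.trans (mul_le_mul_of_nonneg_left f1 hcj)
        refine le_of_mul_le_mul_right (h1.trans (le_of_eq ?_)) hc
        ring
      have k2 : ∑ T ∈ A.powersetCard j, ∑ s ∈ T, ∑ t ∈ T.erase s,
          (∏ p ∈ Bp M w y s t, (1 + C / (p : ℝ)) - 1) ≤ ζ * (A.card : ℝ) ^ j := by
        have h1 := g2.trans (mul_le_mul_of_nonneg_left f2 hcj)
        refine le_of_mul_le_mul_right (h1.trans (le_of_eq ?_)) (pow_pos hc 2)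
        ring
      have k3 := mul_le_mul_of_nonneg_right hcard hδ0
      nlinarith
  refine hgoal.trans (mul_le_mul_of_nonneg_right ?_ (by positivity))
  have e : 8 * (k : ℝ) ^ 2 / w = 8 * (k : ℝ) ^ 2 * (1 / w) := by ring
  rw [hδ, e]
  have h1 : 0 ≤ 8 * (k : ℝ) ^ 2 * ζ := by positivity
  have h2 : 0 ≤ 1 / (w : ℝ) := by positivity
  nlinarith

end Pool.Agent.J4.H40.GD
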