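import Mathlib

/-! Project SD (helper38), piece P5: from maps to `k`-sets. -/

set_option autoImplicit false

namespace Pool.Agent.J4.H40.GD

open Finset

open Classical in
/-- at most `k ^ 2 H ^ (k - 1)` maps into `[1, H]` are not injective, in the form times `H` -/
lemma card_noninj (k H : ℕ) (S : Finset (Fin k → ℕ)) (hS : ∀ d ∈ S, ∀ i, d i ∈ Icc 1 H) :
    (S.filter fun d => ¬ Function.Injective d).card * H ≤ k ^ 2 * H ^ k := by
  have h1 : S.filter (fun d => ¬ Function.Injective d) ⊆
      (univ.filter fun z : Fin k × Fin k => z.1 ≠ z.2).biUnion fun z =>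
        (Fintype.piFinset fun _ : Fin k => Icc 1 H).filter fun d => d z.1 = d z.2 := by
    intro d hd
    rw [mem_filter] at hd
    obtain ⟨h1, h2⟩ := hd
    unfold Function.Injective at h2
    push Not at h2
    obtain ⟨i, j, h3, h4⟩ := h2
    rw [mem_biUnion]
    refine ⟨(i, j), mem_filter.2 ⟨mem_univ _, h4⟩, mem_filter.2 ⟨?_, h3⟩⟩
    rw [Fintype.mem_piFinset]
    exact hS d h1
  have h2 : ∀ z ∈ (univ.filter fun z : Fin k × Fin k => z.1 ≠ z.2),
      ((Fintype.piFinset fun _ : Fin k => Icc 1 H).filter fun d => d z.1 = d z.2).card * H ≤ H ^ k := by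
    rintro ⟨i, j⟩ hz
    have hij : i ≠ j := (mem_filter.1 hz).2
    have h3 : (((Fintype.piFinset fun _ : Fin k => Icc 1 H).filter fun d => d i = d j) ×ˢ Icc 1 H).card ≤
        (Fintype.piFinset fun _ : Fin k => Icc 1 H).card := by
      refine card_le_card_of_injOn (fun x => Function.update x.1 i x.2) ?_ ?_
      · rintro ⟨d, a⟩ hx
        rw [mem_coe, mem_product, mem_filter, Fintype.mem_piFinset] at hx
        rw [mem_coe, Fintype.mem_piFinset]
        intro l
        by_cases hl : l = i
        · subst hl
          simpa using hx.2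
        · simp only [Function.update_of_ne hl]
          exact hx.1.1 l
      · rintro ⟨d, a⟩ hx ⟨d', a'⟩ hx' h
        rw [mem_coe, mem_product, mem_filter] at hx hx'
        simp only at h hx hx'
        have e1 : a = a' := by
          have := congrFun h i
          simpa using this
        have e2 : ∀ l, l ≠ i → d l = d' l := by
          intro l hl
          have := congrFun h l
          simpa [Function.update_of_ne hl] using this
        have e3 : d i = d' i := by
          rw [hx.1.2, hx'.1.2]
          exact e2 j hij.symm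
        refine Prod.ext ?_ e1
        funext l
        by_cases hl : l = i
        · rw [hl]; exact e3
        · exact e2 l hl
    rw [card_product, Nat.card_Icc, Nat.add_sub_cancel] at h3
    refine h3.trans (le_of_eq ?_)
    rw [Fintype.card_piFinset_const, Nat.card_Icc, Nat.add_sub_cancel]
  calc (S.filter fun d => ¬ Function.Injective d).card * H
      ≤ (∑ z ∈ (univ.filter fun z : Fin k × Fin k => z.1 ≠ z.2),
        ((Fintype.piFinset fun _ : Fin k => Icc 1 H).filter fun d => d z.1 = d z.2).card) * H :=
        Nat.mul_le_mul_right _ ((card_le_card h1).trans card_biUnion_le)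
    _ = ∑ z ∈ (univ.filter fun z : Fin k × Fin k => z.1 ≠ z.2),
        ((Fintype.piFinset fun _ : Fin k => Icc 1 H).filter fun d => d z.1 = d z.2).card * H := by rw [sum_mul]
    _ ≤ ∑ z ∈ (univ.filter fun z : Fin k × Fin k => z.1 ≠ z.2), H ^ k := sum_le_sum h2
    _ ≤ k ^ 2 * H ^ k := by
        rw [sum_const, smul_eq_mul]
        refine Nat.mul_le_mul_right _ ((card_filter_le _ _).trans (le_of_eq ?_))
        rw [card_univ, Fintype.card_prod, Fintype.card_fin, sq]

open Classical in
/-- a set of `k` elements is the image of at most `k!` injective maps -/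
lemma card_fibre (k : ℕ) (S : Finset (Fin k → ℕ)) (hS : ∀ d ∈ S, Function.Injective d) (D : Finset ℕ) (hD : D.card = k) :
    (S.filter fun d => univ.image d = D).card ≤ k.factorial := by
  have h1 : (S.filter fun d => univ.image d = D).card ≤ (univ : Finset (Fin k ↪ D)).card := by
    have hmem : ∀ d ∈ S.filter (fun d => univ.image d = D), ∀ i, d i ∈ D := by
      intro d hd i
      rw [← (mem_filter.1 hd).2]
      exact mem_image_of_mem d (mem_univ i)
    refine card_le_card_of_injOn (fun d => if h : (∀ i, d i ∈ D) ∧ Function.Injective d then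
      (⟨fun i => ⟨d i, h.1 i⟩, fun a b hab => h.2 (by simpa using hab)⟩ : Fin k ↪ D) else
        Classical.choice (by
          have : Fintype.card (Fin k) ≤ Fintype.card D := by
            rw [Fintype.card_fin, Fintype.card_coe, hD]
          exact Function.Embedding.nonempty_of_card_le this)) (fun _ _ => mem_coe.2 (mem_univ _)) ?_
    intro d hd d' hd' h
    have g : (∀ i, d i ∈ D) ∧ Function.Injective d := ⟨hmem d hd, hS d (mem_filter.1 hd).1⟩
    have g' : (∀ i, d' i ∈ D) ∧ Function.Injective d' := ⟨hmem d' hd', hS d' (mem_filter.1 hd').1⟩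
    simp only [dif_pos g, dif_pos g'] at h
    funext i
    have := congrArg (fun e : Fin k ↪ D => ((e i : D) : ℕ)) h
    simpa using this
  refine h1.trans (le_of_eq ?_)
  rw [card_univ, Fintype.card_embedding_eq, Fintype.card_fin, Fintype.card_coe, hD, Nat.descFactorial_self]

open Classical in
/-- **P5** `k`-sets instead of maps. -/
theorem maps_sets (k : ℕ) (_hk : 1 ≤ k) (c : ℝ) (hc : 0 < c) : ∃ H₀ : ℕ, ∀ H : ℕ, H₀ ≤ H → ∀ F : Finset ℕ → Prop,
    ∀ S : Finset (Fin k → ℕ), (∀ d ∈ S, (∀ i, d i ∈ Icc 1 H) ∧ F (univ.image d)) → c * (H : ℝ) ^ k ≤ S.card →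
    c / (2 * k.factorial) * (H : ℝ) ^ k ≤ (((Icc 1 H).powersetCard k).filter F).card := by
  refine ⟨⌈2 * (k : ℝ) ^ 2 / c⌉₊ + 1, fun H hH F S hS hcard => ?_⟩
  have hH1 : (2 * (k : ℝ) ^ 2 / c) ≤ H := (Nat.le_ceil _).trans (by exact_mod_cast (by omega : ⌈2 * (k : ℝ) ^ 2 / c⌉₊ ≤ H))
  have hH0 : (0 : ℝ) < H := by exact_mod_cast (by omega : 0 < H)
  rw [div_le_iff₀ hc] at hH1
  have h1 := card_noninj k H S fun d hd => (hS d hd).1
  have h1' : ((S.filter fun d => ¬ Function.Injective d).card : ℝ) * H ≤ (k : ℝ) ^ 2 * (H : ℝ) ^ k := by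
    exact_mod_cast h1
  have h2 : ((S.filter fun d => Function.Injective d).card : ℝ) + (S.filter fun d => ¬ Function.Injective d).card = S.card := by
    exact_mod_cast card_filter_add_card_filter_not (s := S) (fun d : Fin k → ℕ => Function.Injective d)
  have h3 : ((S.filter fun d => ¬ Function.Injective d).card : ℝ) ≤ c / 2 * (H : ℝ) ^ k := by
    refine le_of_mul_le_mul_right (h1'.trans ?_) hH0
    have := mul_le_mul_of_nonneg_right hH1 (by positivity : 0 ≤ (H : ℝ) ^ k)
    nlinarith
  have h4 : c / 2 * (H : ℝ) ^ k ≤ ((S.filter fun d => Function.Injective d).card : ℝ) := by linarith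
  have h5 : (S.filter fun d => Function.Injective d).card ≤
      k.factorial * (((Icc 1 H).powersetCard k).filter F).card := by
    refine card_le_mul_card_image_of_maps_to (f := fun d : Fin k → ℕ => univ.image d) (fun d hd => ?_) _ fun D hD => ?_
    · rw [mem_filter] at hd
      rw [mem_filter, mem_powersetCard]
      refine ⟨⟨?_, ?_⟩, (hS d hd.1).2⟩
      · intro a ha
        obtain ⟨i, _, rfl⟩ := mem_image.1 ha
        exact (hS d hd.1).1 i
      · rw [card_image_of_injective _ hd.2, card_univ, Fintype.card_fin]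
    · rw [mem_filter, mem_powersetCard] at hD
      exact card_fibre k _ (fun d hd => (mem_filter.1 hd).2) D hD.1.2
  have h6 : ((S.filter fun d => Function.Injective d).card : ℝ) ≤
      k.factorial * (((Icc 1 H).powersetCard k).filter F).card := by exact_mod_cast h5
  have hf : (0 : ℝ) < k.factorial := by exact_mod_cast k.factorial_pos
  have h7 : c / (2 * k.factorial) * (H : ℝ) ^ k = (c / 2 * (H : ℝ) ^ k) / k.factorial := by
    field_simp
  rw [h7, div_le_iff₀ hf]
  linarith

end Pool.Agent.J4.H40.GD
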